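import Pool.Agent.Lib_helper7.DC.Constr

/-! Part D of MP_aff989_co from sparse random base graphs. -/

set_option autoImplicit false

namespace Pool.Agent.Lib_helper7.DC

open SimpleGraph Pool.Agent.H90.DC

/-- The statement about base graphs. -/
def BaseStmt : Prop :=
  ∀ g : ℕ, ∃ C : ℝ, 0 < C ∧ ∃ D : ℕ, ∀ b : ℕ, D ≤ b → ∃ N : ℕ, 0 < N ∧
    ∃ H : SimpleGraph (Fin N), (∀ v, (H.neighborSet v).ncard ≤ b) ∧
      (∀ v (p : H.Walk v v), Odd p.length → g ≤ p.length) ∧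
      (∀ S : Finset (Fin N), (∀ u ∈ S, ∀ v ∈ S, ¬ H.Adj u v) →
        (S.card : ℝ) ≤ C * N * Real.log b / b)

theorem color_one {V : Type*} [Fintype V] (H : SimpleGraph V) (s k : ℕ)
    (hs : ∀ I : Finset V, (∀ i ∈ I, ∀ j ∈ I, ¬ H.Adj i j) → I.card ≤ s)
    (hk : (Pw H 1).Colorable k) : Fintype.card V ≤ k * s := by
  classical
  obtain ⟨c⟩ := hk
  let S : Fin k → Finset V := fun a => Finset.univ.filter (fun v => c v = a)
  have hcard : (Finset.univ : Finset V).card = ∑ a, (S a).card :=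
    Finset.card_eq_sum_card_fiberwise (fun v _ => Finset.mem_coe.2 (Finset.mem_univ _))
  have hS : ∀ a, (S a).card ≤ s := by
    intro a
    apply hs
    intro i hi j hj hadj
    have h1' : c i = a := (Finset.mem_filter.1 hi).2
    have h2' : c j = a := (Finset.mem_filter.1 hj).2
    have hadj' : (Pw H 1).Adj i j := by
      rw [pw_adj]
      exact ⟨hadj.ne, Walk.cons hadj Walk.nil, le_rfl⟩
    exact c.valid hadj' (h1'.trans h2'.symm)
  rw [← Finset.card_univ, hcard]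
  calc ∑ a, (S a).card ≤ ∑ _a : Fin k, s := Finset.sum_le_sum (fun a _ => hS a)
    _ = k * s := by simp

theorem final_ineq {t b N s k : ℕ} {C x : ℝ} (hC : 0 < C) (hb : 2 ≤ b) (hN : 0 < N) (ht : 1 ≤ t)
    (hs : (s : ℝ) ≤ C * N * Real.log b / b) (hk : N * b ^ (t - 1) ≤ k * s)
    (hx : (b : ℝ) ≤ x) : (b : ℝ) ^ t ≤ k * C * Real.log x := by
  have hb0 : (0:ℝ) < b := by positivity
  have hN0 : (0:ℝ) < N := by exact_mod_cast hN
  have hk' : (N:ℝ) * (b:ℝ) ^ (t - 1) ≤ k * s := by exact_mod_cast hk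
  have hlog : 0 ≤ Real.log b := Real.log_natCast_nonneg b
  have hlog2 : Real.log b ≤ Real.log x := Real.log_le_log hb0 hx
  have h1 : (N:ℝ) * (b:ℝ) ^ (t - 1) ≤ k * (C * N * Real.log b / b) :=
    hk'.trans (mul_le_mul_of_nonneg_left hs (Nat.cast_nonneg k))
  have h2 : (N:ℝ) * (b:ℝ) ^ (t - 1) * b ≤ k * (C * N * Real.log b / b) * b :=
    mul_le_mul_of_nonneg_right h1 hb0.le
  have h3 : (k:ℝ) * (C * N * Real.log b / b) * b = N * (k * C * Real.log b) := by
    field_simp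
  have h4 : (N:ℝ) * (b:ℝ) ^ (t - 1) * b = N * (b:ℝ) ^ t := by
    obtain ⟨r, rfl⟩ : ∃ r, t = r + 1 := ⟨t - 1, by omega⟩
    rw [Nat.add_sub_cancel, pow_succ]; ring
  rw [h3, h4] at h2
  have h5 := le_of_mul_le_mul_left h2 hN0
  refine h5.trans ?_
  exact mul_le_mul_of_nonneg_left hlog2 (by positivity)

/-- Part D. -/
theorem partD_of_base (hbase : BaseStmt) (t ℓ : ℕ) (ht : Odd t) (hℓ : Odd ℓ) :
    ∃ c : ℝ, 0 < c ∧ ∃ D : ℕ, ∀ d : ℕ, D ≤ d →
      LowerGood t ℓ d (c * (d : ℝ) ^ t / Real.log (d : ℝ)) := by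
  classical
  obtain ⟨C, hC, D, hD⟩ := hbase (ℓ + 1)
  have ht1 : 1 ≤ t := ht.pos
  refine ⟨1 / (5 ^ t * C), by positivity, 5 * D + 20, fun d hd => ?_⟩
  have hd0 : (0:ℝ) < d := by
    have : 0 < d := by omega
    exact_mod_cast this
  have hd2 : (2:ℝ) ≤ d := by
    have : 2 ≤ d := by omega
    exact_mod_cast this
  have hlogd : 0 < Real.log d := Real.log_pos (by linarith)
  have key : ∀ (b k : ℕ), 2 ≤ b → (d:ℝ) ≤ 5 * b → (b : ℝ) ≤ d →
      (k : ℝ) < 1 / (5 ^ t * C) * (d : ℝ) ^ t / Real.log (d : ℝ) →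
      ∀ N s : ℕ, 0 < N → (s : ℝ) ≤ C * N * Real.log b / b → N * b ^ (t - 1) ≤ k * s → False := by
    intro b k hb h5 hbd hk N s hN hs hle
    have h1 := final_ineq hC hb hN ht1 hs hle hbd
    rw [lt_div_iff₀ hlogd] at hk
    have h2 : (k:ℝ) * Real.log d * (5 ^ t * C) < (d:ℝ) ^ t := by
      have := mul_lt_mul_of_pos_right hk (show (0:ℝ) < 5 ^ t * C by positivity)
      have e : 1 / (5 ^ t * C) * (d:ℝ) ^ t * (5 ^ t * C) = (d:ℝ) ^ t := by
        field_simp
      rw [e] at this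
      exact this
    have h3 : (d:ℝ) ^ t ≤ 5 ^ t * (b:ℝ) ^ t := by
      rw [← mul_pow]
      exact pow_le_pow_left₀ hd0.le h5 t
    have h4 : (5:ℝ) ^ t * (b:ℝ) ^ t ≤ 5 ^ t * (k * C * Real.log d) :=
      mul_le_mul_of_nonneg_left h1 (by positivity)
    have h5' : (k:ℝ) * Real.log d * (5 ^ t * C) = 5 ^ t * (k * C * Real.log d) := by ring
    linarith
  by_cases h1 : t = 1
  · subst h1
    obtain ⟨N, hN, H, hH1, hH2, hH3⟩ := hD d (by omega)
    refine ⟨N, H, hH1, ?_, ?_⟩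
    · rintro ⟨v, p, hp, hl⟩
      have := hH2 v p (by rw [hl]; exact hℓ)
      omega
    · intro k hk hc
      refine key d k (by omega) (by linarith) le_rfl hk N ⌊C * N * Real.log d / d⌋₊ hN
        (Nat.floor_le (by positivity)) ?_
      have := color_one H ⌊C * N * Real.log d / d⌋₊ k (fun I hI => Nat.le_floor (hH3 I hI)) hc
      simpa using this
  · obtain ⟨r, hr⟩ := ht
    have hr0 : 1 ≤ r := by omega
    obtain ⟨b, hb⟩ : ∃ b, b = d / 4 := ⟨_, rfl⟩
    have hb4 : 4 * b ≤ d := by omega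
    have hb5 : d ≤ 5 * b := by omega
    have hbD : D ≤ b := by omega
    have hb2 : 2 ≤ b := by omega
    obtain ⟨N, hN, H, hH1, hH2, hH3⟩ := hD b hbD
    have : NeZero (2 * r) := ⟨by omega⟩
    have : NeZero b := ⟨by omega⟩
    have hm : Even (2 * r) := even_two_mul r
    refine lowerGood_of_fintype (GT H (2 * r) b) t ℓ d _ ?_ ?_ ?_
    · intro v
      exact (GT_degree hH1 v).trans hb4
    · rintro ⟨v, p, hp, hl⟩
      have := GT_odd hm (ℓ + 1) hH2 p (by rw [hl]; exact hℓ)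
      rw [hl] at this
      have h2 : 1 * (ℓ + 1) ≤ (2 * r + 1) * (ℓ + 1) := Nat.mul_le_mul_right _ (by omega)
      omega
    · intro k hk hc
      refine key b k hb2 (by exact_mod_cast hb5) ?_ hk N ⌊C * N * Real.log b / b⌋₊ hN
        (Nat.floor_le (by positivity)) ?_
      · have : b ≤ d := by omega
        exact_mod_cast this
      · have e : t = 2 * r + 1 := hr
        rw [e] at hc
        have := color_bound hm ⌊C * N * Real.log b / b⌋₊ k
          (fun I hI => Nat.le_floor (hH3 I hI)) hc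
        rw [Fintype.card_fin] at this
        rw [e]
        simpa using this

end Pool.Agent.Lib_helper7.DC
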