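import Pool.Agent.Lib_helper90.DC.Defs

/-! Construction A for a general base graph `H` (MP_aff989_co): clusters indexed by `V`, words
`Fin m → Fin b`, layered bridges for the edges of `H`; `t = m + 1`. -/

set_option autoImplicit false
set_option linter.unusedSectionVars false

namespace Pool.Agent.Lib_helper7.DC

open SimpleGraph Pool.Agent.H90.DC

/-! ### Distance-like functions and odd walks -/

/-- If `D` changes by at most one along edges and edges with equal values have `2D+1 ≥ L`, then
every walk `p : u → w` with `p.length + D u + D w` odd satisfies `L ≤ p.length + D u + D w`. -/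
theorem walk_odd {X : Type*} {G : SimpleGraph X} (D : X → ℕ) (L : ℕ)
    (h1 : ∀ u v, G.Adj u v → D u ≤ D v + 1)
    (h2 : ∀ u v, G.Adj u v → D u = D v → L ≤ 2 * D u + 1) {u w : X} (p : G.Walk u w) :
    D u ≤ D w + p.length ∧
      (Odd (p.length + D u + D w) → L ≤ p.length + D u + D w) := by
  induction p with
  | nil =>
    refine ⟨by simp, fun h => ?_⟩
    rw [Walk.length_nil, zero_add] at h
    exact absurd h (by rw [Nat.not_odd_iff_even]; exact ⟨_, rfl⟩)
  | @cons u v w hadj p ih =>
    obtain ⟨ih1, ih2⟩ := ih
    have a1 := h1 u v hadj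
    have a2 := h1 v u hadj.symm
    rw [Walk.length_cons]
    refine ⟨by omega, fun h => ?_⟩
    rcases lt_trichotomy (D u) (D v) with h3 | h3 | h3
    · have h4 : D v = D u + 1 := by omega
      have : Odd (p.length + D v + D w) := by
        rw [h4]
        convert h using 1
        ring
      have := ih2 this
      omega
    · have := h2 u v hadj h3
      omega
    · have h4 : D u = D v + 1 := by omega
      have : Odd (p.length + D v + D w) := by
        have : p.length + 1 + D u + D w = p.length + D v + D w + 2 := by omega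
        rw [this] at h
        rw [Nat.odd_add] at h
        exact h.2 even_two
      have := ih2 this
      omega

section Constr

variable {V : Type*} (H : SimpleGraph V) (m b : ℕ) [NeZero m] [NeZero b]

/-- Words. -/
abbrev Wd := Fin m → Fin b

/-- Vertices of the construction: cluster vertices and bridge vertices. -/
abbrev Vx (V : Type*) := (V × Fin m × Wd m b) ⊕ (V × V × Fin m × Wd m b)

/-- last index -/
def lst : Fin m := ⟨m - 1, Nat.sub_lt (Nat.pos_of_ne_zero (NeZero.ne m)) one_pos⟩

variable {m b}

/-- reset the last coordinate -/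
def rho (x : Wd m b) : Wd m b := Function.update x (lst m) 0

/-- `x` and `y` agree off coordinate `h`. -/
def Off (h : Fin m) (x y : Wd m b) : Prop := ∀ c, c ≠ h → x c = y c

variable (m b)

/-- Directed edges of the construction. -/
inductive Rel : Vx m b V → Vx m b V → Prop
  | cc (i : V) (h : Fin m) (x y : Wd m b) (hxy : Off h x y) :
      Rel (Sum.inl (i, h, x)) (Sum.inl (i, h + 1, y))
  | cl (i j : V) (hij : H.Adj i j) (x : Wd m b) :
      Rel (Sum.inl (i, 0, x)) (Sum.inr (i, j, 0, rho x))
  | ll (i j : V) (hij : H.Adj i j) (h h' : Fin m) (hh : h.val + 1 = h'.val) (x y : Wd m b)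
      (hxy : Off h x y) :
      Rel (Sum.inr (i, j, h, x)) (Sum.inr (i, j, h', y))
  | lc (i j : V) (hij : H.Adj i j) (x : Wd m b) :
      Rel (Sum.inr (i, j, lst m, rho x)) (Sum.inl (j, 0, x))

/-- The graph. -/
def GT : SimpleGraph (Vx m b V) := SimpleGraph.fromRel (Rel H m b)

variable {H m b}

theorem GT_adj_of_rel {u v : Vx m b V} (h : Rel H m b u v) (hne : u ≠ v) : (GT H m b).Adj u v := by
  rw [GT, SimpleGraph.fromRel_adj]
  exact ⟨hne, Or.inl h⟩

theorem rel_of_GT_adj {u v : Vx m b V} (h : (GT H m b).Adj u v) :
    Rel H m b u v ∨ Rel H m b v u := by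
  rw [GT, SimpleGraph.fromRel_adj] at h
  exact h.2

/-! ### the distance function -/

/-- distance-like function built from `δ` on the base graph. -/
def Dist (m b : ℕ) (δ : V → ℕ) : Vx m b V → ℕ
  | Sum.inl (j, h, _) => (m + 1) * δ j + h.val % 2
  | Sum.inr (j, k, h, _) => min ((m + 1) * δ j + (h.val + 1)) ((m + 1) * δ k + (m - h.val))

theorem fin_add_one_mod (hm : Even m) (h : Fin m) : (h + 1).val % 2 = (h.val + 1) % 2 := by
  obtain ⟨r, hr⟩ := hm
  have hm0 : m ≠ 0 := NeZero.ne m
  by_cases h1 : h.val + 1 < m
  · rw [Fin.val_add_one_of_lt' h1]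
  · have h2 : h.val + 1 = m := by have := h.2; omega
    have h3 : (h + 1).val = 0 := by
      have : (h + 1).val = (h.val + 1) % m := by
        rw [Fin.val_add]
        have hmm : 1 < m := by omega
        have h11 : ((1 : Fin m) : ℕ) = 1 := by
          have : ((1 : Fin m) : ℕ) = 1 % m := rfl
          rw [this, Nat.mod_eq_of_lt hmm]
        rw [h11]
      rw [this, h2, Nat.mod_self]
    rw [h3, h2]; omega

theorem rel_dist (hm : Even m) (δ : V → ℕ) (g : ℕ)
    (hδ1 : ∀ j k, H.Adj j k → δ j ≤ δ k + 1)
    (hδ2 : ∀ j k, H.Adj j k → δ j = δ k → g ≤ 2 * δ j + 1)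
    {u v : Vx m b V} (h : Rel H m b u v) :
    (Dist m b δ u ≤ Dist m b δ v + 1 ∧ Dist m b δ v ≤ Dist m b δ u + 1) ∧
      (Dist m b δ u = Dist m b δ v → (m + 1) * g ≤ 2 * Dist m b δ u + 1) := by
  have hm0 : m ≠ 0 := NeZero.ne m
  obtain ⟨r, hr⟩ := id hm
  cases h with
  | cc i h x y hxy =>
    simp only [Dist]
    have := fin_add_one_mod hm h
    refine ⟨⟨?_, ?_⟩, fun h' => ?_⟩ <;> omega
  | cl i j hij x =>
    simp only [Dist]
    have a1 := hδ1 i j hij
    have a2 := hδ1 j i hij.symm
    have h0 : ((0 : Fin m) : ℕ) = 0 := by simp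
    rw [h0]
    rcases lt_trichotomy (δ i) (δ j) with h3 | h3 | h3
    · have e : δ j = δ i + 1 := by omega
      rw [e]
      have e2 : (m + 1) * (δ i + 1) = (m + 1) * δ i + (m + 1) := by ring
      rw [e2]
      refine ⟨⟨?_, ?_⟩, fun h' => ?_⟩ <;> omega
    · rw [h3]
      refine ⟨⟨?_, ?_⟩, fun h' => ?_⟩ <;> omega
    · have e : δ i = δ j + 1 := by omega
      rw [e]
      have e2 : (m + 1) * (δ j + 1) = (m + 1) * δ j + (m + 1) := by ring
      rw [e2]
      refine ⟨⟨?_, ?_⟩, fun h' => ?_⟩ <;> omega
  | ll i j hij h h' hh x y hxy =>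
    simp only [Dist]
    have a1 := hδ1 i j hij
    have a2 := hδ1 j i hij.symm
    have hlt := h'.2
    rw [← hh]
    rcases lt_trichotomy (δ i) (δ j) with h3 | h3 | h3
    · have e : δ j = δ i + 1 := by omega
      rw [e]
      have e2 : (m + 1) * (δ i + 1) = (m + 1) * δ i + (m + 1) := by ring
      rw [e2]
      refine ⟨⟨?_, ?_⟩, fun h' => ?_⟩ <;> omega
    · have a3 := hδ2 i j hij h3
      have a4 : (m + 1) * g ≤ (m + 1) * (2 * δ i + 1) := Nat.mul_le_mul_left _ a3
      have a5 : (m + 1) * (2 * δ i + 1) = 2 * ((m + 1) * δ i) + m + 1 := by ring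
      rw [a5] at a4
      rw [← h3]
      refine ⟨⟨?_, ?_⟩, fun h' => ?_⟩ <;> omega
    · have e : δ i = δ j + 1 := by omega
      rw [e]
      have e2 : (m + 1) * (δ j + 1) = (m + 1) * δ j + (m + 1) := by ring
      rw [e2]
      refine ⟨⟨?_, ?_⟩, fun h' => ?_⟩ <;> omega
  | lc i j hij x =>
    simp only [Dist]
    have a1 := hδ1 i j hij
    have a2 := hδ1 j i hij.symm
    have h0 : ((0 : Fin m) : ℕ) = 0 := by simp
    have h1 : (lst m).val = m - 1 := rfl
    rw [h0, h1]
    rcases lt_trichotomy (δ i) (δ j) with h3 | h3 | h3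
    · have e : δ j = δ i + 1 := by omega
      rw [e]
      have e2 : (m + 1) * (δ i + 1) = (m + 1) * δ i + (m + 1) := by ring
      rw [e2]
      refine ⟨⟨?_, ?_⟩, fun h' => ?_⟩ <;> omega
    · rw [h3]
      refine ⟨⟨?_, ?_⟩, fun h' => ?_⟩ <;> omega
    · have e : δ i = δ j + 1 := by omega
      rw [e]
      have e2 : (m + 1) * (δ j + 1) = (m + 1) * δ j + (m + 1) := by ring
      rw [e2]
      refine ⟨⟨?_, ?_⟩, fun h' => ?_⟩ <;> omega

/-! ### odd closed walks are long -/

/-- the vertices of clusters at even level -/
def EvC : Vx m b V → Prop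
  | Sum.inl (_, h, _) => h.val % 2 = 0
  | Sum.inr _ => False

/-- parity away from even cluster vertices -/
def par : Vx m b V → ℕ
  | Sum.inl _ => 0
  | Sum.inr (_, _, h, _) => h.val

theorem rel_par (hm : Even m) {u v : Vx m b V} (h : Rel H m b u v) (hu : ¬ EvC u) (hv : ¬ EvC v) :
    par u + 1 = par v := by
  have hm0 : m ≠ 0 := NeZero.ne m
  cases h with
  | cc i h x y hxy =>
    simp only [EvC] at hu hv
    have := fin_add_one_mod hm h
    omega
  | cl i j hij x =>
    exfalso; apply hu
    show ((0 : Fin m) : ℕ) % 2 = 0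
    simp
  | ll i j hij h h' hh x y hxy =>
    exact hh
  | lc i j hij x =>
    exfalso; apply hv
    show ((0 : Fin m) : ℕ) % 2 = 0
    simp

theorem exists_EvC (hm : Even m) {u w : Vx m b V} (p : (GT H m b).Walk u w)
    (h : ∀ v ∈ p.support, ¬ EvC v) : Even (p.length + par u + par w) := by
  induction p with
  | nil => rw [Walk.length_nil, zero_add]; exact ⟨_, rfl⟩
  | @cons u v w hadj p ih =>
    have ih' := ih (fun x hx => h x (by rw [Walk.support_cons]; exact List.mem_cons_of_mem _ hx))
    have hu : ¬ EvC u := h u (by rw [Walk.support_cons]; exact List.mem_cons_self)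
    have hv : ¬ EvC v := h v (by
      rw [Walk.support_cons]; exact List.mem_cons_of_mem _ p.start_mem_support)
    rw [Walk.length_cons]
    rcases rel_of_GT_adj hadj with h' | h'
    · have := rel_par hm h' hu hv
      have e : p.length + 1 + par u + par w = p.length + par v + par w := by omega
      rw [e]; exact ih'
    · have := rel_par hm h' hv hu
      have e : p.length + 1 + par u + par w = p.length + par v + par w + 2 := by omega
      rw [e]; exact ih'.add even_two

/-- truncated distance in the base graph -/
noncomputable def del (H : SimpleGraph V) (g : ℕ) (i j : V) : ℕ :=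
  open Classical in if H.Reachable i j then min (H.dist i j) g else g

theorem del_self (g : ℕ) (i : V) : del H g i i = 0 := by
  unfold del
  rw [if_pos (Reachable.refl i), dist_self, Nat.zero_min]

theorem del_le (g : ℕ) (i : V) {j k : V} (h : H.Adj j k) : del H g i j ≤ del H g i k + 1 := by
  unfold del
  by_cases hk : H.Reachable i k
  · have hj : H.Reachable i j := hk.trans h.symm.reachable
    rw [if_pos hk, if_pos hj]
    obtain ⟨p, hp⟩ := hk.exists_walk_length_eq_dist
    have := dist_le (p.concat h.symm)
    rw [Walk.length_concat, hp] at this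
    omega
  · rw [if_neg hk]
    split_ifs
    · omega
    · omega

theorem del_eq (g : ℕ) (hH : ∀ v (p : H.Walk v v), Odd p.length → g ≤ p.length)
    (i : V) {j k : V} (h : H.Adj j k) (he : del H g i j = del H g i k) :
    g ≤ 2 * del H g i j + 1 := by
  by_cases hk : H.Reachable i k
  · have hj : H.Reachable i j := hk.trans h.symm.reachable
    have e1 : del H g i j = min (H.dist i j) g := by unfold del; rw [if_pos hj]
    have e2 : del H g i k = min (H.dist i k) g := by unfold del; rw [if_pos hk]
    by_cases h1 : H.dist i j < g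
    · obtain ⟨p, hp⟩ := hj.exists_walk_length_eq_dist
      obtain ⟨q, hq⟩ := hk.exists_walk_length_eq_dist
      have h3 : H.dist i j = H.dist i k := by omega
      have := hH i ((p.concat h).append q.reverse) (by
        rw [Walk.length_append, Walk.length_concat, Walk.length_reverse, hp, hq, h3]
        exact ⟨H.dist i k, by ring⟩)
      rw [Walk.length_append, Walk.length_concat, Walk.length_reverse, hp, hq] at this
      omega
    · omega
  · have hj : ¬ H.Reachable i j := fun hj => hk (hj.trans h.reachable)
    unfold del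
    rw [if_neg hj]; omega

/-- Odd closed walks in `GT` have length at least `(m+1) g` if those of `H` have length at
least `g`. -/
theorem GT_odd (hm : Even m) (g : ℕ)
    (hH : ∀ v (p : H.Walk v v), Odd p.length → g ≤ p.length)
    {u : Vx m b V} (p : (GT H m b).Walk u u) (hp : Odd p.length) :
    (m + 1) * g ≤ p.length := by
  classical
  obtain ⟨w, hw, hE⟩ : ∃ w ∈ p.support, EvC w := by
    by_contra hcon
    push Not at hcon
    have := exists_EvC hm p hcon
    rw [add_assoc] at this
    have h2 : Even (par u + par u) := ⟨_, rfl⟩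
    rw [Nat.even_add] at this
    exact (Nat.not_even_iff_odd.2 hp) (this.2 h2)
  rcases w with ⟨i, h, x⟩ | w
  swap
  · exact absurd hE (by simp [EvC])
  have hD0 : Dist m b (del H g i) (Sum.inl (i, h, x)) = 0 := by
    simp only [Dist, del_self]
    have : h.val % 2 = 0 := hE
    omega
  have key := walk_odd (G := GT H m b) (Dist m b (del H g i)) ((m + 1) * g)
    (fun u v huv => by
      rcases rel_of_GT_adj huv with h' | h'
      · exact (rel_dist hm (del H g i) g (fun j k hjk => del_le g i hjk)
          (fun j k hjk => del_eq g hH i hjk) h').1.1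
      · exact (rel_dist hm (del H g i) g (fun j k hjk => del_le g i hjk)
          (fun j k hjk => del_eq g hH i hjk) h').1.2)
    (fun u v huv he => by
      rcases rel_of_GT_adj huv with h' | h'
      · exact (rel_dist hm (del H g i) g (fun j k hjk => del_le g i hjk)
          (fun j k hjk => del_eq g hH i hjk) h').2 he
      · rw [he]
        exact (rel_dist hm (del H g i) g (fun j k hjk => del_le g i hjk)
          (fun j k hjk => del_eq g hH i hjk) h').2 he.symm)
    (p.rotate _ hw)
  rw [hD0, Walk.length_rotate] at key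
  simpa using key.2 (by simpa using hp)

/-! ### degrees -/

theorem ncard_range_fin {X : Type*} (f : Fin b → X) : (Set.range f).ncard ≤ b := by
  rw [← Set.image_univ]
  refine (Set.ncard_image_le (Set.toFinite _)).trans ?_
  rw [Set.ncard_univ, Nat.card_eq_fintype_card, Fintype.card_fin]

theorem eq_update {h : Fin m} {x y : Wd m b} (hxy : Off h x y) :
    y = Function.update x h (y h) := by
  funext c
  by_cases hc : c = h
  · subst hc; simp
  · rw [Function.update_of_ne hc]; exact (hxy c hc).symm

theorem eq_update_rho (x : Wd m b) : x = Function.update (rho x) (lst m) (x (lst m)) := by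
  unfold rho
  rw [Function.update_idem, Function.update_eq_self]

theorem GT_degree [Finite V] (hdeg : ∀ i, (H.neighborSet i).ncard ≤ b) (v : Vx m b V) :
    ((GT H m b).neighborSet v).ncard ≤ 4 * b := by
  have hm0 : 0 < m := Nat.pos_of_ne_zero (NeZero.ne m)
  rcases v with ⟨i, h, x⟩ | ⟨i, j, h, w⟩
  · have hsub : (GT H m b).neighborSet (Sum.inl (i, h, x)) ⊆
        ((Set.range (fun a : Fin b => (Sum.inl (i, h + 1, Function.update x h a) : Vx m b V))) ∪
        (Set.range (fun a : Fin b =>
          (Sum.inl (i, h - 1, Function.update x (h - 1) a) : Vx m b V)))) ∪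
        (((fun j => (Sum.inr (i, j, 0, rho x) : Vx m b V)) '' H.neighborSet i) ∪
        ((fun j => (Sum.inr (j, i, lst m, rho x) : Vx m b V)) '' H.neighborSet i)) := by
      intro u hu
      rw [SimpleGraph.mem_neighborSet] at hu
      rcases rel_of_GT_adj hu with h' | h'
      · cases h' with
        | cc i h x y hxy =>
          left; left
          exact ⟨y h, by beta_reduce; rw [← eq_update hxy]⟩
        | cl i j hij x =>
          right; left
          exact ⟨j, hij, rfl⟩
      · cases h' with
        | cc i h x' y hxy =>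
          left; right
          refine ⟨x' h, ?_⟩
          have e : h + 1 - 1 = h := by simp
          simp only [e]
          rw [← eq_update (fun c hc => (hxy c hc).symm)]
        | lc i j hij x =>
          right; right
          exact ⟨i, hij.symm, rfl⟩
    refine (Set.ncard_le_ncard hsub (Set.toFinite _)).trans ?_
    refine (Set.ncard_union_le _ _).trans ?_
    have e1 := Set.ncard_union_le
      (Set.range (fun a : Fin b => (Sum.inl (i, h + 1, Function.update x h a) : Vx m b V)))
      (Set.range (fun a : Fin b => (Sum.inl (i, h - 1, Function.update x (h - 1) a) : Vx m b V)))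
    have e2 := Set.ncard_union_le
      ((fun j => (Sum.inr (i, j, 0, rho x) : Vx m b V)) '' H.neighborSet i)
      ((fun j => (Sum.inr (j, i, lst m, rho x) : Vx m b V)) '' H.neighborSet i)
    have e3 := ncard_range_fin
      (fun a : Fin b => (Sum.inl (i, h + 1, Function.update x h a) : Vx m b V))
    have e4 := ncard_range_fin
      (fun a : Fin b => (Sum.inl (i, h - 1, Function.update x (h - 1) a) : Vx m b V))
    have e5 := (Set.ncard_image_le (f := fun j => (Sum.inr (i, j, 0, rho x) : Vx m b V))
      (Set.toFinite (H.neighborSet i))).trans (hdeg i)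
    have e6 := (Set.ncard_image_le (f := fun j => (Sum.inr (j, i, lst m, rho x) : Vx m b V))
      (Set.toFinite (H.neighborSet i))).trans (hdeg i)
    omega
  · have hsub : (GT H m b).neighborSet (Sum.inr (i, j, h, w)) ⊆
        ((Set.range (fun a : Fin b =>
          (Sum.inr (i, j, h + 1, Function.update w h a) : Vx m b V))) ∪
        (Set.range (fun a : Fin b =>
          (Sum.inr (i, j, h - 1, Function.update w (h - 1) a) : Vx m b V)))) ∪
        ((Set.range (fun a : Fin b =>
          (Sum.inl (i, 0, Function.update w (lst m) a) : Vx m b V))) ∪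
        (Set.range (fun a : Fin b =>
          (Sum.inl (j, 0, Function.update w (lst m) a) : Vx m b V)))) := by
      intro u hu
      rw [SimpleGraph.mem_neighborSet] at hu
      rcases rel_of_GT_adj hu with h' | h'
      · cases h' with
        | ll i j hij h h' hh x y hxy =>
          left; left
          refine ⟨y h, ?_⟩
          have e : h + 1 = h' := by
            apply Fin.ext
            rw [← hh]
            apply Fin.val_add_one_of_lt'
            rw [hh]; exact h'.2
          simp only [e]
          rw [← eq_update hxy]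
        | lc i j hij x =>
          right; right
          exact ⟨x (lst m), by simp only; rw [← eq_update_rho]⟩
      · cases h' with
        | ll i j hij h0 h' hh x y hxy =>
          left; right
          refine ⟨x h0, ?_⟩
          have e : h - 1 = h0 := by
            have : h0 + 1 = h := by
              apply Fin.ext
              rw [← hh]
              apply Fin.val_add_one_of_lt'
              rw [hh]; exact h.2
            rw [← this]; simp
          simp only [e]
          rw [← eq_update (fun c hc => (hxy c hc).symm)]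
        | cl i j hij x =>
          right; left
          exact ⟨x (lst m), by simp only; rw [← eq_update_rho]⟩
    refine (Set.ncard_le_ncard hsub (Set.toFinite _)).trans ?_
    refine (Set.ncard_union_le _ _).trans ?_
    have e1 := Set.ncard_union_le
      (Set.range (fun a : Fin b => (Sum.inr (i, j, h + 1, Function.update w h a) : Vx m b V)))
      (Set.range (fun a : Fin b =>
        (Sum.inr (i, j, h - 1, Function.update w (h - 1) a) : Vx m b V)))
    have e2 := Set.ncard_union_le
      (Set.range (fun a : Fin b => (Sum.inl (i, 0, Function.update w (lst m) a) : Vx m b V)))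
      (Set.range (fun a : Fin b => (Sum.inl (j, 0, Function.update w (lst m) a) : Vx m b V)))
    have e3 := ncard_range_fin
      (fun a : Fin b => (Sum.inr (i, j, h + 1, Function.update w h a) : Vx m b V))
    have e4 := ncard_range_fin
      (fun a : Fin b => (Sum.inr (i, j, h - 1, Function.update w (h - 1) a) : Vx m b V))
    have e5 := ncard_range_fin
      (fun a : Fin b => (Sum.inl (i, 0, Function.update w (lst m) a) : Vx m b V))
    have e6 := ncard_range_fin
      (fun a : Fin b => (Sum.inl (j, 0, Function.update w (lst m) a) : Vx m b V))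
    omega

/-! ### distances -/

/-- words with first `a` coordinates taken from `y` -/
def mix (a : ℕ) (x y : Wd m b) : Wd m b := fun c => if c.val < a then y c else x c

theorem mix_off {a : ℕ} (ha : a < m) (x y : Wd m b) :
    Off ⟨a, ha⟩ (mix a x y) (mix (a + 1) x y) := by
  intro c hc
  have hc' : c.val ≠ a := fun h => hc (Fin.ext h)
  unfold mix
  by_cases h1 : c.val < a
  · rw [if_pos h1, if_pos (by omega)]
  · rw [if_neg h1, if_neg (by omega)]

theorem mix_zero (x y : Wd m b) : mix 0 x y = x := by
  funext c; simp [mix]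

theorem mix_m (x y : Wd m b) : mix m x y = y := by
  funext c; simp [mix]

theorem rho_last (x : Wd m b) : rho x (lst m) = 0 := by
  unfold rho; simp

theorem rho_of_ne (x : Wd m b) {c : Fin m} (hc : c ≠ lst m) : rho x c = x c := by
  unfold rho; rw [Function.update_of_ne hc]

theorem mix_rho (x y : Wd m b) : mix (m - 1) (rho x) (rho y) = rho y := by
  have hm0 : 0 < m := Nat.pos_of_ne_zero (NeZero.ne m)
  funext c
  unfold mix
  by_cases h1 : c.val < m - 1
  · rw [if_pos h1]
  · rw [if_neg h1]
    have : c = lst m := by
      apply Fin.ext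
      have := c.2
      show c.val = m - 1
      omega
    rw [this, rho_last, rho_last]

theorem walk_cluster (i : V) (x y : Wd m b) (a : ℕ) (ha : a < m) :
    ∃ p : (GT H m b).Walk (Sum.inl (i, 0, x)) (Sum.inl (i, ⟨a, ha⟩, mix a x y)), p.length = a := by
  induction a with
  | zero =>
    have e : (⟨0, ha⟩ : Fin m) = 0 := by apply Fin.ext; simp
    rw [e, mix_zero]
    exact ⟨Walk.nil, rfl⟩
  | succ a ih =>
    obtain ⟨p, hp⟩ := ih (by omega)
    have hr : Rel H m b (Sum.inl (i, ⟨a, by omega⟩, mix a x y))
        (Sum.inl (i, ⟨a, by omega⟩ + 1, mix (a + 1) x y)) :=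
      Rel.cc i _ _ _ (mix_off (by omega) x y)
    have e : (⟨a, by omega⟩ + 1 : Fin m) = ⟨a + 1, ha⟩ := by
      apply Fin.ext
      rw [Fin.val_add_one_of_lt' (by simpa using ha)]
    rw [e] at hr
    have hadj := GT_adj_of_rel hr (by
      intro h
      have := congrArg (fun v : Vx m b V => match v with
        | Sum.inl (_, h, _) => h.val
        | Sum.inr _ => 0) h
      simp at this)
    exact ⟨p.concat hadj, by rw [Walk.length_concat, hp]⟩

/-- two points of the same cluster are at distance at most `m` -/
theorem dist_cluster (hm : Even m) (i : V) (x y : Wd m b) :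
    ∃ p : (GT H m b).Walk (Sum.inl (i, 0, x)) (Sum.inl (i, 0, y)), p.length ≤ m := by
  have hm0 : 0 < m := Nat.pos_of_ne_zero (NeZero.ne m)
  have hm1 : 1 < m := by obtain ⟨r, hr⟩ := hm; omega
  obtain ⟨p, hp⟩ := walk_cluster (H := H) i x y (m - 1) (by omega)
  have hr : Rel H m b (Sum.inl (i, ⟨m - 1, by omega⟩, mix (m - 1) x y))
      (Sum.inl (i, ⟨m - 1, by omega⟩ + 1, mix (m - 1 + 1) x y)) :=
    Rel.cc i _ _ _ (mix_off (by omega) x y)
  have e : (⟨m - 1, by omega⟩ + 1 : Fin m) = 0 := by
    apply Fin.ext
    rw [Fin.val_add]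
    have h11 : ((1 : Fin m) : ℕ) = 1 := by
      have : ((1 : Fin m) : ℕ) = 1 % m := rfl
      rw [this, Nat.mod_eq_of_lt hm1]
    rw [h11]
    simp only [Fin.val_zero]
    rw [Nat.sub_add_cancel (by omega), Nat.mod_self]
  have e2 : m - 1 + 1 = m := by omega
  rw [e, e2, mix_m] at hr
  have hadj := GT_adj_of_rel hr (by
    intro h
    have := congrArg (fun v : Vx m b V => match v with
      | Sum.inl (_, h, _) => h.val
      | Sum.inr _ => 0) h
    simp at this
    omega)
  exact ⟨p.concat hadj, by rw [Walk.length_concat, hp]; omega⟩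

theorem walk_bridge (i j : V) (hij : H.Adj i j) (x y : Wd m b) (a : ℕ) (ha : a < m) :
    ∃ p : (GT H m b).Walk (Sum.inl (i, 0, x))
      (Sum.inr (i, j, ⟨a, ha⟩, mix a (rho x) (rho y))), p.length = a + 1 := by
  induction a with
  | zero =>
    have e : (⟨0, ha⟩ : Fin m) = 0 := by apply Fin.ext; simp
    rw [e, mix_zero]
    have hadj := GT_adj_of_rel (Rel.cl (m := m) (b := b) i j hij x) (by simp)
    exact ⟨Walk.cons hadj Walk.nil, rfl⟩
  | succ a ih =>
    obtain ⟨p, hp⟩ := ih (by omega)
    have hr : Rel H m b (Sum.inr (i, j, ⟨a, by omega⟩, mix a (rho x) (rho y)))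
        (Sum.inr (i, j, ⟨a + 1, ha⟩, mix (a + 1) (rho x) (rho y))) :=
      Rel.ll i j hij _ _ rfl _ _ (mix_off (by omega) _ _)
    have hadj := GT_adj_of_rel hr (by
      intro h
      have := congrArg (fun v : Vx m b V => match v with
        | Sum.inl _ => 0
        | Sum.inr (_, _, h, _) => h.val) h
      simp at this)
    exact ⟨p.concat hadj, by rw [Walk.length_concat, hp]⟩

/-- points of adjacent clusters are at distance at most `m + 1` -/
theorem dist_bridge (i j : V) (hij : H.Adj i j) (x y : Wd m b) :
    ∃ p : (GT H m b).Walk (Sum.inl (i, 0, x)) (Sum.inl (j, 0, y)), p.length ≤ m + 1 := by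
  have hm0 : 0 < m := Nat.pos_of_ne_zero (NeZero.ne m)
  obtain ⟨p, hp⟩ : ∃ p : (GT H m b).Walk (Sum.inl (i, 0, x))
      (Sum.inr (i, j, lst m, rho y)), p.length = m - 1 + 1 := by
    have := walk_bridge (H := H) i j hij x y (m - 1) (by omega)
    rw [mix_rho] at this
    exact this
  have hadj := GT_adj_of_rel (Rel.lc (m := m) (b := b) i j hij y) (by simp)
  exact ⟨p.concat hadj, by rw [Walk.length_concat, hp]; omega⟩

/-! ### colourings of the power -/

/-- If `Pw (GT H m b) (m+1)` is `k`-colourable and every independent set of `H` has at most `s`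
elements, then `|V| b^m ≤ k s`. -/
theorem color_bound [Fintype V] (hm : Even m) (s k : ℕ)
    (hs : ∀ I : Finset V, (∀ i ∈ I, ∀ j ∈ I, ¬ H.Adj i j) → I.card ≤ s)
    (hk : (Pw (GT H m b) (m + 1)).Colorable k) : Fintype.card V * b ^ m ≤ k * s := by
  classical
  obtain ⟨c⟩ := hk
  let P : V × Wd m b → Vx m b V := fun v => Sum.inl (v.1, 0, v.2)
  let S : Fin k → Finset (V × Wd m b) := fun a => Finset.univ.filter (fun v => c (P v) = a)
  have hcard : (Finset.univ : Finset (V × Wd m b)).card = ∑ a, (S a).card :=
    Finset.card_eq_sum_card_fiberwise (fun v _ => Finset.mem_coe.2 (Finset.mem_univ _))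
  have hS : ∀ a, (S a).card ≤ s := by
    intro a
    have hinj : Set.InjOn Prod.fst (S a : Set (V × Wd m b)) := by
      rintro ⟨i, x⟩ h1 ⟨j, y⟩ h2 hij
      have hij' : i = j := hij
      subst hij'
      by_contra hne
      have h1' : c (P (i, x)) = a := (Finset.mem_filter.1 h1).2
      have h2' : c (P (i, y)) = a := (Finset.mem_filter.1 h2).2
      obtain ⟨p, hp⟩ := dist_cluster (H := H) hm i x y
      have hadj : (Pw (GT H m b) (m + 1)).Adj (P (i, x)) (P (i, y)) := by
        rw [pw_adj]
        refine ⟨fun h => hne ?_, p, by omega⟩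
        have := (Sum.inl.inj h)
        rw [Prod.mk.injEq, Prod.mk.injEq] at this
        exact Prod.ext rfl this.2.2
      exact c.valid hadj (h1'.trans h2'.symm)
    rw [← Finset.card_image_of_injOn hinj]
    apply hs
    intro i hi j hj hadj
    obtain ⟨⟨i', x⟩, h1, rfl⟩ := Finset.mem_image.1 hi
    obtain ⟨⟨j', y⟩, h2, rfl⟩ := Finset.mem_image.1 hj
    have h1' : c (P (i', x)) = a := (Finset.mem_filter.1 h1).2
    have h2' : c (P (j', y)) = a := (Finset.mem_filter.1 h2).2
    obtain ⟨p, hp⟩ := dist_bridge (H := H) i' j' hadj x y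
    have hadj' : (Pw (GT H m b) (m + 1)).Adj (P (i', x)) (P (j', y)) := by
      rw [pw_adj]
      refine ⟨fun h => hadj.ne ?_, p, hp⟩
      have := (Sum.inl.inj h)
      rw [Prod.mk.injEq] at this
      exact this.1
    exact c.valid hadj' (h1'.trans h2'.symm)
  have e1 : (Finset.univ : Finset (V × Wd m b)).card = Fintype.card V * b ^ m := by
    rw [Finset.card_univ, Fintype.card_prod]
    simp [Wd]
  rw [← e1, hcard]
  calc ∑ a, (S a).card ≤ ∑ _a : Fin k, s := Finset.sum_le_sum (fun a _ => hS a)
    _ = k * s := by simp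

end Constr

end Pool.Agent.Lib_helper7.DC
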